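import Pool.Agent.H76.QE.Targets

/-!
# Row DZP of the board qd_modules (helper21)

The pseudo-density of a quadratic system: bound, mean one, mass zero on the violated points.
-/

set_option autoImplicit false

open Finset Pool.Agent.H76.QE
open Pool.Agent.H1.LP (supp ip comb kk S_DISP S_COL S_SMALL)
open H43.PS (PosDeg Low av)
open Pool.Agent.H73.OX (ch)

namespace Pool.Agent.H21.QD

theorem av_abs {X : Type} [Fintype X] [Nonempty X] (f : X → ℝ) (B : ℝ) (h : ∀ x, |f x| ≤ B) :
    |av f| ≤ B := by
  have hc : (0 : ℝ) < Fintype.card X := by exact_mod_cast Fintype.card_pos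
  unfold av
  rw [abs_mul, abs_of_pos (inv_pos.2 hc), inv_mul_le_iff₀ hc]
  refine le_trans (abs_sum_le_sum_abs _ _) ?_
  refine le_trans (sum_le_sum fun x _ => h x) ?_
  rw [sum_const, card_univ, nsmul_eq_mul]

theorem av_comm {X Y : Type} [Fintype X] [Fintype Y] (f : X → Y → ℝ) :
    av (fun z => av (fun x => f x z)) = av (fun x => av (fun z => f x z)) := by
  unfold av
  rw [← mul_sum, ← mul_sum, sum_comm]
  ring

theorem av_cst {X : Type} [Fintype X] [Nonempty X] (c : ℝ) : av (fun _ : X => c) = c := by
  have hc : (0 : ℝ) < Fintype.card X := by exact_mod_cast Fintype.card_pos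
  unfold av
  rw [sum_const, card_univ, nsmul_eq_mul]
  field_simp

theorem av_mul {X : Type} [Fintype X] (f : X → ℝ) (c : ℝ) :
    av f * c = av (fun x => f x * c) := by
  unfold av
  rw [← sum_mul, mul_assoc]

theorem ld_le {p M N : ℕ} [Fact p.Prime] (A : Fin M → Fin N → ZMod p) (τ : ℕ)
    (c : Fin M → ZMod p) (z : Fin N → ZMod p) : |LD A τ c z| ≤ (CC p M τ).card := by
  unfold LD
  refine le_trans (abs_sum_le_sum_abs _ _) ?_
  refine le_trans (sum_le_sum (g := fun _ => (1 : ℝ)) fun C _ => ?_) ?_
  · refine le_trans (Complex.abs_re_le_norm _) ?_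
    rw [AddChar.norm_apply]
  · rw [sum_const, nsmul_eq_mul, mul_one]

theorem pf_DZP (hN : T_CNT) (hM : T_MEA) (hL : T_LOC) : T_DZP := by
  classical
  intro p R N τ t₁ hp A b hI h2 ht
  have hIτ : Indp A τ := fun C hC h => hI C (le_trans hC (by omega)) h
  refine ⟨?_, ?_, ?_⟩
  · intro z
    refine av_abs _ _ fun x => le_trans (ld_le A τ _ z) ?_
    exact_mod_cast hN p (R + R) τ
  · unfold D0
    rw [av_comm]
    have h1 : (fun x : Fin R → ZMod p => av (fun z => LD A τ (sh b x) z)) = fun _ => (1 : ℝ) := by
      funext x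
      exact hM p (R + R) N τ A _ hIτ
    rw [h1, av_cst]
  · intro i B hB
    have hc : (0 : ℝ) < Fintype.card (Fin N → ZMod p) := by exact_mod_cast Fintype.card_pos
    obtain ⟨F, hF⟩ : ∃ F : ZMod p → ZMod p → ℝ, F = fun y0 y1 =>
      if y1 - b (Fin.natAdd R i) ≠ (y0 - b (Fin.castAdd R i)) ^ 2 then (1 : ℝ) else 0 := ⟨_, rfl⟩
    have h1 : ∑ z ∈ B, D0 A τ b z = (Fintype.card (Fin N → ZMod p) : ℝ) *
        av (fun z => D0 A τ b z * F (ip (A (Fin.castAdd R i)) z) (ip (A (Fin.natAdd R i)) z)) := by
      unfold av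
      rw [mul_inv_cancel_left₀ hc.ne', ← sum_filter_add_sum_filter_not univ (fun z => z ∈ B)]
      rw [sum_congr rfl (g := fun z => D0 A τ b z)
        (s₁ := univ.filter (fun z => z ∈ B)), sum_eq_zero (s := univ.filter (fun z => z ∉ B)),
        add_zero, filter_mem_eq_inter, univ_inter]
      · intro z hz
        rw [mem_filter] at hz
        have h2 : ¬ (ip (A (Fin.natAdd R i)) z - b (Fin.natAdd R i) ≠
          (ip (A (Fin.castAdd R i)) z - b (Fin.castAdd R i)) ^ 2) := fun h => hz.2 ((hB z).2 h)
        rw [hF]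
        show D0 A τ b z * (if _ then _ else _) = 0
        rw [if_neg h2, mul_zero]
      · intro z hz
        rw [mem_filter] at hz
        have h2 : ip (A (Fin.natAdd R i)) z - b (Fin.natAdd R i) ≠
          (ip (A (Fin.castAdd R i)) z - b (Fin.castAdd R i)) ^ 2 := (hB z).1 hz.2
        rw [hF]
        show D0 A τ b z * (if _ then _ else _) = _
        rw [if_pos h2, mul_one]
    have h3 : av (fun z => D0 A τ b z * F (ip (A (Fin.castAdd R i)) z)
        (ip (A (Fin.natAdd R i)) z)) = 0 := by
      unfold D0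
      simp only [av_mul]
      rw [av_comm]
      have hne : Fin.castAdd R i ≠ Fin.natAdd R i := by
        intro h
        have := congrArg Fin.val h
        simp at this
        have := i.2
        omega
      have h4 : ∀ x : Fin R → ZMod p, av (fun z => LD A τ (sh b x) z *
          F (ip (A (Fin.castAdd R i)) z) (ip (A (Fin.natAdd R i)) z)) = 0 := by
        intro x
        rw [hL p (R + R) N τ t₁ A (sh b x) _ _ hne hI h2 ht F, hF]
        have e1 : sh b x (Fin.castAdd R i) = b (Fin.castAdd R i) + x i := by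
          unfold sh
          rw [Fin.addCases_left]
        have e2 : sh b x (Fin.natAdd R i) = b (Fin.natAdd R i) + x i ^ 2 := by
          unfold sh
          rw [Fin.addCases_right]
        show (if _ then _ else _) = _
        rw [if_neg]
        rw [e1, e2]
        push Not
        ring
      rw [funext h4]
      exact av_cst 0
    rw [h1, h3, mul_zero]

end Pool.Agent.H21.QD
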