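import Pool.Agent.H76.QE.Targets

/-!
# Row KFB of the board qd_modules (helper21)

Decay of the mean character of the right sides.
-/

set_option autoImplicit false

open Finset Pool.Agent.H76.QE
open Pool.Agent.H1.LP (supp ip comb kk S_DISP S_COL S_SMALL)
open H43.PS (PosDeg Low av)
open Pool.Agent.H73.OX (ch)

namespace Pool.Agent.H21.QD

theorem std_sum {p : ℕ} [NeZero p] {ι : Type} (s : Finset ι) (f : ι → ZMod p) :
    (ZMod.stdAddChar (∑ i ∈ s, f i) : ℂ) = ∏ i ∈ s, (ZMod.stdAddChar (f i) : ℂ) := by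
  classical
  induction s using Finset.induction_on with
  | empty => rw [sum_empty, prod_empty, AddChar.map_zero_eq_one]
  | insert a s ha ih => rw [sum_insert ha, prod_insert ha, AddChar.map_add_eq_mul, ih]

theorem kf_eq {p R : ℕ} [Fact p.Prime] (b C : Fin (R + R) → ZMod p) :
    ‖KF b C‖ = ∏ i : Fin R, (‖∑ y : ZMod p, (ZMod.stdAddChar
      (-C (Fin.castAdd R i) * y + -C (Fin.natAdd R i) * y ^ 2) : ℂ)‖ / p) := by
  classical
  have hp : (0 : ℝ) < p := by exact_mod_cast (Fact.out : p.Prime).pos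
  have h1 : ∀ x : Fin R → ZMod p, (ZMod.stdAddChar (-ip C (sh b x)) : ℂ) =
      ZMod.stdAddChar (-ip C b) * ∏ i : Fin R, (ZMod.stdAddChar
        (-C (Fin.castAdd R i) * x i + -C (Fin.natAdd R i) * x i ^ 2) : ℂ) := by
    intro x
    rw [← std_sum, ← AddChar.map_add_eq_mul]
    congr 1
    unfold ip
    rw [Fin.sum_univ_add, Fin.sum_univ_add]
    unfold sh
    simp only [Fin.addCases_left, Fin.addCases_right]
    rw [sum_add_distrib]
    have e1 : ∑ i : Fin R, C (Fin.castAdd R i) * (b (Fin.castAdd R i) + x i) =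
        ∑ i : Fin R, C (Fin.castAdd R i) * b (Fin.castAdd R i) +
        ∑ i : Fin R, C (Fin.castAdd R i) * x i := by
      rw [← sum_add_distrib]
      exact sum_congr rfl fun i _ => by ring
    have e2 : ∑ i : Fin R, C (Fin.natAdd R i) * (b (Fin.natAdd R i) + x i ^ 2) =
        ∑ i : Fin R, C (Fin.natAdd R i) * b (Fin.natAdd R i) +
        ∑ i : Fin R, C (Fin.natAdd R i) * x i ^ 2 := by
      rw [← sum_add_distrib]
      exact sum_congr rfl fun i _ => by ring
    have e3 : ∑ i : Fin R, -C (Fin.castAdd R i) * x i = -∑ i : Fin R, C (Fin.castAdd R i) * x i := by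
      rw [← sum_neg_distrib]
      exact sum_congr rfl fun i _ => by ring
    have e4 : ∑ i : Fin R, -C (Fin.natAdd R i) * x i ^ 2 =
        -∑ i : Fin R, C (Fin.natAdd R i) * x i ^ 2 := by
      rw [← sum_neg_distrib]
      exact sum_congr rfl fun i _ => by ring
    rw [e1, e2, e3, e4]
    ring
  have h2 : ∑ x : Fin R → ZMod p, ∏ i : Fin R, (ZMod.stdAddChar
      (-C (Fin.castAdd R i) * x i + -C (Fin.natAdd R i) * x i ^ 2) : ℂ) =
      ∏ i : Fin R, ∑ y : ZMod p, (ZMod.stdAddChar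
        (-C (Fin.castAdd R i) * y + -C (Fin.natAdd R i) * y ^ 2) : ℂ) := by
    rw [prod_univ_sum, Fintype.piFinset_univ]
  unfold KF
  simp only [h1]
  rw [← mul_sum, h2, norm_mul, norm_mul, AddChar.norm_apply, one_mul, norm_prod, norm_inv,
    norm_pow, Complex.norm_natCast, prod_div_distrib, prod_const, card_univ, Fintype.card_fin]
  rw [inv_mul_eq_div]

theorem supp_eq {p R : ℕ} (C : Fin (R + R) → ZMod p) : (supp C).card =
    ∑ i : Fin R, ((if C (Fin.castAdd R i) ≠ 0 then 1 else 0) +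
      (if C (Fin.natAdd R i) ≠ 0 then 1 else 0)) := by
  unfold supp
  rw [card_filter, Fin.sum_univ_add, sum_add_distrib]

theorem pf_KFB (hG : T_GSU) : T_KFB := by
  classical
  intro p R hpp hp2 b C
  have hp : (0 : ℝ) < p := by exact_mod_cast (Fact.out : p.Prime).pos
  have hp1 : (1 : ℝ) ≤ p := by exact_mod_cast (Fact.out : p.Prime).one_lt.le
  rw [kf_eq, supp_eq, ← prod_pow, ← prod_pow_eq_pow_sum, ← prod_mul_distrib]
  refine prod_le_one (fun i _ => by positivity) fun i _ => ?_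
  by_cases h : C (Fin.castAdd R i) = 0 ∧ C (Fin.natAdd R i) = 0
  · rw [if_neg (fun h' => h' h.1), if_neg (fun h' => h' h.2), h.1, h.2]
    have e1 : ∑ y : ZMod p, (ZMod.stdAddChar (-(0 : ZMod p) * y + -0 * y ^ 2) : ℂ) = p := by
      simp [ZMod.card]
    rw [e1, Complex.norm_natCast, div_self hp.ne']
    norm_num
  · have h1 := hG p hp2 (-C (Fin.castAdd R i)) (-C (Fin.natAdd R i)) (by
      by_contra hc
      push Not at hc
      exact h ⟨neg_eq_zero.1 hc.1, neg_eq_zero.1 hc.2⟩)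
    obtain ⟨s, hs⟩ : ∃ s, s = ‖∑ y : ZMod p, (ZMod.stdAddChar
      (-C (Fin.castAdd R i) * y + -C (Fin.natAdd R i) * y ^ 2) : ℂ)‖ := ⟨_, rfl⟩
    rw [← hs] at h1 ⊢
    have h0 : 0 ≤ s := by rw [hs]; exact norm_nonneg _
    have h3 : (p : ℝ) ^ ((if C (Fin.castAdd R i) ≠ 0 then 1 else 0) +
      (if C (Fin.natAdd R i) ≠ 0 then 1 else 0)) ≤ (p : ℝ) ^ 2 := by
      refine pow_le_pow_right₀ hp1 ?_
      split_ifs <;> norm_num
    have h4 : (s / p) ^ 4 ≤ 1 / (p : ℝ) ^ 2 := by
      rw [div_pow, div_le_div_iff₀ (by positivity) (by positivity)]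
      have h5 : s ^ 4 ≤ (p : ℝ) ^ 2 := by
        have : s ^ 4 = (s ^ 2) ^ 2 := by ring
        rw [this]
        exact pow_le_pow_left₀ (by positivity) h1 2
      nlinarith [pow_pos hp 2]
    refine le_trans (mul_le_mul h4 h3 (by positivity) (by positivity)) ?_
    rw [one_div, inv_mul_cancel₀ (by positivity)]

end Pool.Agent.H21.QD
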